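import Pool.Agent.Run7.h47.SD.Iface2

/-! # MUT: the shifted uniform law (project SD of helper47; the power moments follow
Run7/h888/SD/MOMU.lean) -/

set_option autoImplicit false

namespace Run7.h803.SD

open MeasureTheory Filter Pool.Agent.Run7.h47.SD
open scoped Topology ENNReal

noncomputable section

lemma sub_I_ne (v : ℝ) : (v : ℂ) - Complex.I ≠ 0 := by
  intro h
  have := congrArg Complex.im h
  simp at this

lemma continuous_dd : Continuous dd := by
  unfold dd
  exact continuous_const.div (Complex.continuous_ofReal.sub continuous_const) sub_I_ne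

lemma mean_eq (sg e : ℝ) (g : ℝ → ℂ) (hg : Continuous g) :
    ∫ v, g v ∂(((1 / 2 : ℝ≥0∞) • (volume.restrict (Set.Icc (-1 : ℝ) 1))).map fun x => sg * x - e)
      = (1 / 2 : ℂ) * ∫ x in (-1 : ℝ)..1, g (sg * x - e) := by
  rw [integral_map (by fun_prop) hg.aestronglyMeasurable, integral_smul_measure,
    integral_Icc_eq_integral_Ioc, ← intervalIntegral.integral_of_le (by norm_num)]
  rw [Complex.real_smul]
  congr 1
  simp

lemma norm_sub_I_ge (v : ℝ) : |v| ≤ ‖(v : ℂ) - Complex.I‖ := by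
  have h1 := Complex.abs_re_le_norm ((v : ℂ) - Complex.I)
  simpa using h1

lemma mom_high (sg e r : ℝ) (hsg : 0 < sg) (hr : 0 < r) (h1r : r ≤ |sg - e|)
    (h2r : r ≤ |-sg - e|) (hrs : r ≤ sg) (n : ℕ) :
    ‖(1 / 2 : ℂ) * ∫ x in (-1 : ℝ)..1, dd (sg * x - e) ^ (n + 2)‖ ≤ 1 / r ^ (n + 2) := by
  have hsgc : (sg : ℂ) ≠ 0 := by exact_mod_cast hsg.ne'
  have hn : ((n : ℂ) + 1) ≠ 0 := by exact_mod_cast Nat.succ_ne_zero n
  set F : ℝ → ℂ := fun x => -(1 / (((n : ℂ) + 1) * sg)) *
    ((((sg * x - e : ℝ) : ℂ) - Complex.I) ^ (n + 1))⁻¹ with hF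
  have hder : ∀ x ∈ Set.uIcc (-1 : ℝ) 1, HasDerivAt F (dd (sg * x - e) ^ (n + 2)) x := by
    intro x _
    have hne := sub_I_ne (sg * x - e)
    have h0 : HasDerivAt (fun x : ℝ => (((sg * x - e : ℝ) : ℂ) - Complex.I)) (sg : ℂ) x := by
      have h1 : HasDerivAt (fun x : ℝ => sg * x - e) (sg * 1) x :=
        ((hasDerivAt_id x).const_mul sg).sub_const e
      have h2 := h1.ofReal_comp
      have h3 := h2.sub_const Complex.I
      simpa using h3
    have h1 := (h0.fun_pow (n + 1)).fun_inv (pow_ne_zero _ hne)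
    have h2 := h1.const_mul (-(1 / (((n : ℂ) + 1) * sg)))
    refine h2.congr_deriv ?_
    unfold dd
    rw [div_pow, one_pow, Nat.add_sub_cancel]
    push_cast at hne ⊢
    field_simp
    ring
  have hcont : Continuous fun x : ℝ => dd (sg * x - e) ^ (n + 2) :=
    (continuous_dd.comp (by fun_prop)).pow _
  rw [intervalIntegral.integral_eq_sub_of_hasDerivAt hder (hcont.intervalIntegrable _ _)]
  have hFb : ∀ x : ℝ, r ≤ |sg * x - e| → ‖F x‖ ≤ 1 / r ^ (n + 2) := by
    intro x hx
    rw [hF]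
    simp only
    rw [norm_mul, norm_neg, norm_div, norm_one, norm_mul, norm_inv, norm_pow, Complex.norm_real,
      Real.norm_eq_abs, abs_of_pos hsg]
    have h1 : r ≤ ‖((sg * x - e : ℝ) : ℂ) - Complex.I‖ := hx.trans (norm_sub_I_ge _)
    have h2 : 1 ≤ ‖(n : ℂ) + 1‖ := by
      have : ((n : ℂ) + 1) = ((n + 1 : ℕ) : ℂ) := by push_cast; ring
      rw [this, Complex.norm_natCast]
      exact_mod_cast Nat.succ_le_succ (Nat.zero_le n)
    have h3 : r ^ (n + 1) ≤ ‖((sg * x - e : ℝ) : ℂ) - Complex.I‖ ^ (n + 1) :=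
      pow_le_pow_left₀ hr.le h1 _
    rw [← one_div, div_mul_div_comm, one_mul]
    apply one_div_le_one_div_of_le (by positivity)
    have h4 : r ≤ ‖(n : ℂ) + 1‖ * sg := by nlinarith
    calc r ^ (n + 2) = r * r ^ (n + 1) := by ring
      _ ≤ (‖(n : ℂ) + 1‖ * sg) * ‖((sg * x - e : ℝ) : ℂ) - Complex.I‖ ^ (n + 1) :=
          mul_le_mul h4 h3 (by positivity) (by positivity)
  have h1 := hFb 1 (by rwa [mul_one])
  have h2 := hFb (-1) (by rwa [mul_neg, mul_one])
  rw [norm_mul]
  have h3 : ‖(1 / 2 : ℂ)‖ = 1 / 2 := by norm_num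
  rw [h3]
  have h4 := norm_sub_le (F 1) (F (-1))
  linarith

lemma dd_eq (v : ℝ) : dd v = ((v / (1 + v ^ 2) : ℝ) : ℂ) + ((1 / (1 + v ^ 2) : ℝ) : ℂ) * Complex.I := by
  unfold dd
  have h1 := sub_I_ne v
  have h2 : (1 + (v : ℂ) ^ 2) ≠ 0 := by
    have : (1 + v ^ 2 : ℝ) ≠ 0 := by positivity
    exact_mod_cast this
  push_cast
  rw [div_mul_eq_mul_div, ← add_div, div_eq_div_iff h1 h2]
  linear_combination (1 : ℂ) * Complex.I_sq

lemma mom_one (sg e : ℝ) (hsg : 0 < sg) :
    (1 / 2 : ℂ) * ∫ x in (-1 : ℝ)..1, dd (sg * x - e) =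
      (((Real.log (1 + (sg - e) ^ 2) - Real.log (1 + (sg + e) ^ 2)) / (4 * sg) : ℝ) : ℂ) +
      (((Real.arctan (sg - e) + Real.arctan (sg + e)) / (2 * sg) : ℝ) : ℂ) * Complex.I := by
  have hc1 : Continuous fun x : ℝ => (sg * x - e) / (1 + (sg * x - e) ^ 2) :=
    Continuous.div (by fun_prop) (by fun_prop) (fun x => by positivity)
  have hc2 : Continuous fun x : ℝ => 1 / (1 + (sg * x - e) ^ 2) :=
    Continuous.div (by fun_prop) (by fun_prop) (fun x => by positivity)
  have h1 : ∫ x in (-1 : ℝ)..1, (sg * x - e) / (1 + (sg * x - e) ^ 2) =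
      (Real.log (1 + (sg - e) ^ 2) - Real.log (1 + (sg + e) ^ 2)) / (2 * sg) := by
    have hder : ∀ x ∈ Set.uIcc (-1 : ℝ) 1, HasDerivAt
        (fun x => Real.log (1 + (sg * x - e) ^ 2) / (2 * sg))
        ((sg * x - e) / (1 + (sg * x - e) ^ 2)) x := by
      intro x _
      have h0 : HasDerivAt (fun x : ℝ => sg * x - e) (sg * 1) x :=
        ((hasDerivAt_id x).const_mul sg).sub_const e
      have h2 := (h0.fun_pow 2).const_add 1
      have hp : (1 + (sg * x - e) ^ 2) ≠ 0 := by positivity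
      have h3 := (h2.log hp).div_const (2 * sg)
      refine h3.congr_deriv ?_
      field_simp
      norm_num
      ring
    rw [intervalIntegral.integral_eq_sub_of_hasDerivAt hder (hc1.intervalIntegrable _ _)]
    have e1 : (sg * 1 - e) = sg - e := by ring
    have e2 : (sg * -1 - e) ^ 2 = (sg + e) ^ 2 := by ring
    rw [e1, e2]
    ring
  have h2 : ∫ x in (-1 : ℝ)..1, 1 / (1 + (sg * x - e) ^ 2) =
      (Real.arctan (sg - e) + Real.arctan (sg + e)) / sg := by
    have hder : ∀ x ∈ Set.uIcc (-1 : ℝ) 1, HasDerivAt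
        (fun x => Real.arctan (sg * x - e) / sg) (1 / (1 + (sg * x - e) ^ 2)) x := by
      intro x _
      have h0 : HasDerivAt (fun x : ℝ => sg * x - e) (sg * 1) x :=
        ((hasDerivAt_id x).const_mul sg).sub_const e
      have h3 := (h0.arctan).div_const sg
      refine h3.congr_deriv ?_
      field_simp
    rw [intervalIntegral.integral_eq_sub_of_hasDerivAt hder (hc2.intervalIntegrable _ _)]
    have e1 : (sg * 1 - e) = sg - e := by ring
    have e2 : (sg * -1 - e) = -(sg + e) := by ring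
    rw [e1, e2, Real.arctan_neg]
    ring
  simp only [dd_eq]
  have i1 : IntervalIntegrable
      (fun x : ℝ => (((sg * x - e) / (1 + (sg * x - e) ^ 2) : ℝ) : ℂ)) volume (-1) 1 :=
    (Complex.continuous_ofReal.comp hc1).intervalIntegrable _ _
  have i2 : IntervalIntegrable
      (fun x : ℝ => ((1 / (1 + (sg * x - e) ^ 2) : ℝ) : ℂ) * Complex.I) volume (-1) 1 :=
    ((Complex.continuous_ofReal.comp hc2).mul continuous_const).intervalIntegrable _ _
  rw [intervalIntegral.integral_add i1 i2,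
    intervalIntegral.integral_mul_const, intervalIntegral.integral_ofReal,
    intervalIntegral.integral_ofReal, h1, h2]
  push_cast
  have hsgc : (sg : ℂ) ≠ 0 := by exact_mod_cast hsg.ne'
  field_simp
  ring

lemma log_bd {T sg a b : ℝ} (hT0 : 0 < T) (hT1 : T < 1) (hsg : 0 < sg) (ha : (1 - T) * sg ≤ a)
    (ha' : a ≤ (1 + T) * sg) (hb : (1 - T) * sg ≤ b) :
    Real.log (1 + a ^ 2) - Real.log (1 + b ^ 2) ≤ 4 / (1 - T) := by
  have h1T : 0 < 1 - T := by linarith
  have hb0 : 0 < b := lt_of_lt_of_le (by positivity) hb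
  have ha0 : 0 < a := lt_of_lt_of_le (by positivity) ha
  set q : ℝ := (1 + T) / (1 - T) with hq
  have hq1 : 1 ≤ q := by
    rw [hq, le_div_iff₀ h1T]
    linarith
  have hab : a ≤ q * b := by
    rw [hq, div_mul_eq_mul_div, le_div_iff₀ h1T]
    nlinarith
  have h2 : 1 + a ^ 2 ≤ q ^ 2 * (1 + b ^ 2) := by
    have h3 : a ^ 2 ≤ (q * b) ^ 2 := pow_le_pow_left₀ ha0.le hab 2
    have h4 : 1 ≤ q ^ 2 := one_le_pow₀ hq1
    nlinarith
  have h5 : Real.log (1 + a ^ 2) ≤ Real.log (q ^ 2 * (1 + b ^ 2)) :=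
    Real.log_le_log (by positivity) h2
  rw [Real.log_mul (by positivity) (by positivity), Real.log_pow] at h5
  have h6 : Real.log q ≤ q - 1 := Real.log_le_sub_one_of_pos (by positivity)
  have h7 : q - 1 ≤ 2 / (1 - T) := by
    rw [hq, div_sub_one h1T.ne', div_le_div_iff_of_pos_right h1T]
    linarith
  have h8 : 4 / (1 - T) = 2 * (2 / (1 - T)) := by ring
  rw [h8]
  push_cast at h5
  linarith

theorem t_MUT : S_MUT := by
  intro T hT0 hT1
  have h1T : 0 < 1 - T := by linarith
  refine ⟨4 / (1 - T), 16 / (1 - T), by positivity, ?_, ?_⟩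
  · rw [le_div_iff₀ h1T]
    linarith
  intro sg e hsg he
  have hsg0 : 0 < sg := by linarith
  have he' := abs_le.1 he
  have hr : 0 < (1 - T) * sg := by positivity
  have ha1 : (1 - T) * sg ≤ sg - e := by linarith [he'.2]
  have ha2 : sg - e ≤ (1 + T) * sg := by linarith [he'.1]
  have hb1 : (1 - T) * sg ≤ sg + e := by linarith [he'.1]
  have hb2 : sg + e ≤ (1 + T) * sg := by linarith [he'.2]
  have hmean : ∫ v, dd v ∂(((1 / 2 : ℝ≥0∞) • (volume.restrict (Set.Icc (-1 : ℝ) 1))).map
      fun x => sg * x - e) =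
      (((Real.log (1 + (sg - e) ^ 2) - Real.log (1 + (sg + e) ^ 2)) / (4 * sg) : ℝ) : ℂ) +
      (((Real.arctan (sg - e) + Real.arctan (sg + e)) / (2 * sg) : ℝ) : ℂ) * Complex.I := by
    rw [mean_eq sg e dd continuous_dd, mom_one sg e hsg0]
  have hat1 : 0 ≤ Real.arctan (sg - e) := Real.arctan_nonneg.mpr (hr.le.trans ha1)
  have hat2 : 0 ≤ Real.arctan (sg + e) := Real.arctan_nonneg.mpr (hr.le.trans hb1)
  have hpi := Real.pi_le_four
  have hpi3 := Real.pi_gt_three
  refine ⟨by positivity, ?_, ?_, ?_⟩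
  · rw [le_div_iff₀ h1T]
    linarith
  · intro m hm
    rcases Nat.lt_or_ge m 2 with h | h
    · have hm1 : m = 1 := by omega
      subst hm1
      simp only [pow_one]
      rw [hmean]
      refine (norm_add_le _ _).trans ?_
      rw [norm_mul, Complex.norm_I, mul_one, Complex.norm_real, Complex.norm_real,
        Real.norm_eq_abs, Real.norm_eq_abs]
      have l1 : |(Real.log (1 + (sg - e) ^ 2) - Real.log (1 + (sg + e) ^ 2)) / (4 * sg)| ≤
          1 / (1 - T) / sg := by
        rw [abs_div, abs_of_pos (by positivity : 0 < 4 * sg), div_le_div_iff₀ (by positivity) hsg0]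
        have h1 := log_bd hT0 hT1 hsg0 ha1 ha2 hb1
        have h2 := log_bd hT0 hT1 hsg0 hb1 hb2 ha1
        have h3 : |Real.log (1 + (sg - e) ^ 2) - Real.log (1 + (sg + e) ^ 2)| ≤ 4 / (1 - T) := by
          rw [abs_le]
          constructor <;> linarith
        calc |Real.log (1 + (sg - e) ^ 2) - Real.log (1 + (sg + e) ^ 2)| * sg
            ≤ 4 / (1 - T) * sg := mul_le_mul_of_nonneg_right h3 hsg0.le
          _ = 1 / (1 - T) * (4 * sg) := by ring
      have l2 : |(Real.arctan (sg - e) + Real.arctan (sg + e)) / (2 * sg)| ≤ 2 / sg := by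
        rw [abs_of_nonneg (by positivity), div_le_div_iff₀ (by positivity) hsg0]
        have h1 := Real.arctan_lt_pi_div_two (sg - e)
        have h2 := Real.arctan_lt_pi_div_two (sg + e)
        nlinarith
      have l3 : 1 / (1 - T) / sg + 2 / sg ≤ 4 / (1 - T) / sg := by
        rw [← add_div, div_le_div_iff_of_pos_right hsg0]
        have : 2 ≤ 2 / (1 - T) := by
          rw [le_div_iff₀ h1T]
          linarith
        have e1 : 4 / (1 - T) = 1 / (1 - T) + 2 / (1 - T) + 1 / (1 - T) := by ring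
        have e2 : 0 < 1 / (1 - T) := by positivity
        linarith
      linarith
    · obtain ⟨n, rfl⟩ := Nat.exists_eq_add_of_le' h
      rw [mean_eq sg e (fun v => dd v ^ (n + 2)) (continuous_dd.pow _)]
      refine (mom_high sg e ((1 - T) * sg) hsg0 hr ?_ ?_ ?_ n).trans ?_
      · rw [abs_of_nonneg (hr.le.trans ha1)]
        exact ha1
      · have : -sg - e = -(sg + e) := by ring
        rw [this, abs_neg, abs_of_nonneg (hr.le.trans hb1)]
        exact hb1
      · nlinarith
      · rw [← one_div_pow]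
        apply pow_le_pow_left₀ (by positivity)
        rw [div_div, div_le_div_iff₀ hr (by positivity)]
        nlinarith
  · rw [hmean]
    have h1 : ((((Real.log (1 + (sg - e) ^ 2) - Real.log (1 + (sg + e) ^ 2)) / (4 * sg) : ℝ) : ℂ) +
      (((Real.arctan (sg - e) + Real.arctan (sg + e)) / (2 * sg) : ℝ) : ℂ) * Complex.I).im =
        (Real.arctan (sg - e) + Real.arctan (sg + e)) / (2 * sg) := by
      rw [Complex.add_im, Complex.ofReal_im, Complex.mul_I_im, Complex.ofReal_re, zero_add]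
    rw [h1]
    have h2 : 4 / (1 - T) / sg / (16 / (1 - T)) = 1 / (4 * sg) := by
      field_simp
      norm_num
    rw [h2, div_le_div_iff₀ (by positivity) (by positivity)]
    have h3 : Real.pi / 4 ≤ Real.arctan (sg - e) + Real.arctan (sg + e) := by
      rcases le_total 0 e with h0 | h0
      · have : Real.arctan 1 ≤ Real.arctan (sg + e) := Real.arctan_mono (by linarith)
        rw [Real.arctan_one] at this
        linarith
      · have : Real.arctan 1 ≤ Real.arctan (sg - e) := Real.arctan_mono (by linarith)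
        rw [Real.arctan_one] at this
        linarith
    nlinarith

end

end Run7.h803.SD
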